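import Mathlib
import Pool.Agent.P.MP_331808_co.Defs
import Pool.Agent.P.MP_331808_co.Tiling

/-!
A nine-tile patch that lies in a tiling of the plane with all vertices of species 3 but in no
convex patch.
-/

namespace Pool.Agent.Results.MP_331808_co.NoConvexExtension

open Pool.Agent.P.MP_331808_co

theorem result : ∃ A : Set (Set ℂ), IsPatch A ∧ (∃ F, IsTiling F ∧ A ⊆ F) ∧
    ¬ ∃ B, IsPatch B ∧ A ⊆ B ∧ Convex ℝ (⋃₀ B) :=
  main

end Pool.Agent.Results.MP_331808_co.NoConvexExtension
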